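import Pool.Agent.X156.SR.Final

/-!
# Simplicial refinements with fewer vertices than the model

The central section `C = {x ∈ L | ∑ |x_i| ≤ 1}` of the `k`-dimensional cross-polytope by a linear
subspace `L` has a simplicial refinement by a simplex `T` with `2 k` vertices `(i, ±)`: `f` sends
`a` to `(a (i, +) - a (i, -))_i` and is defined where this vector lies in `L`. By the Hahn-Banach
theorem every affine `η : C → [0,1]` is `α + y` with a linear functional `y` of the whole space with
`|y_i| ≤ min α (1 - α)`, and `ω (i, ±) = α ± y_i` is a form on `T` with `ω = η ∘ f`. For `L` the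
kernel of the first `r` rows of a Vandermonde matrix, `C` has `2 (k choose (r + 1))` extreme points.
For `k = 4`, `r = 1`, `C` is the cuboctahedron with `12` vertices, and `T` has `8` vertices.
-/

set_option autoImplicit false

namespace Pool.Agent.Results.MP_902647_gt.FewerVertices

open Pool.Agent.X156.SR

theorem family (k r : ℕ) (hr : 1 ≤ r) (hk : r + 2 ≤ k) :
    ∃ C : Set (Fin k → ℝ), IsPolytope C ∧ ¬ IsSimplex C ∧
      Module.finrank ℝ (vectorSpan ℝ C) = k - r ∧
      (C.extremePoints ℝ).ncard = 2 * k.choose (r + 1) ∧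
      ∃ (T : Set (Fin k × Bool → ℝ)) (f : (Fin k × Bool → ℝ) →. (Fin k → ℝ))
        (g : (T → ℝ) →. (C → ℝ)), IsRefinement C T f g ∧ (T.extremePoints ℝ).ncard = 2 * k := by
  have hcard := mom_ncard (k := k) (r := r) (by omega)
  have hpos : 2 ≤ k.choose (r + 1) := by
    calc 2 ≤ (r + 2).choose (r + 1) := by
          rw [show r + 2 = (r + 1) + 1 from rfl, Nat.choose_succ_self_right]
          omega
      _ ≤ k.choose (r + 1) := Nat.choose_le_choose _ hk
  have : Nonempty (Fin k) := ⟨⟨0, by omega⟩⟩
  refine ⟨body (mom k r), body_isPolytope _, body_not_isSimplex (by omega), ?_, hcard,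
    _, _, _, isRefinement_body (mom k r), ?_⟩
  · rw [vectorSpan_body, finrank_mom (by omega)]
  · rw [extremePoints_stdSimplex, Fintype.card_prod, Fintype.card_fin, Fintype.card_bool]
    ring

/-- **Negative answer to Q1.** For all `r ≥ 1` and `k ≥ r + 2` there is a non-simplicial statistical
model `(C, Ω C)` with `C ⊆ ℝ^k` of dimension `k - r` and with exactly `2 (k choose (r + 1))` extreme
points, which has a simplicial refinement `(T, Ω T, f, g)` with exactly `2 k` vertices. In particular
(`k = 4`, `r = 1`: `12` and `8`) it is not true that the simplex `T` of a simplicial refinement of a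
non-simplicial statistical model has at least as many extreme points as `C`. -/
theorem result :
    (∀ k r : ℕ, 1 ≤ r → r + 2 ≤ k → ∃ C : Set (Fin k → ℝ), IsPolytope C ∧ ¬ IsSimplex C ∧
      Module.finrank ℝ (vectorSpan ℝ C) = k - r ∧
      (C.extremePoints ℝ).ncard = 2 * k.choose (r + 1) ∧
      ∃ (T : Set (Fin k × Bool → ℝ)) (f : (Fin k × Bool → ℝ) →. (Fin k → ℝ))
        (g : (T → ℝ) →. (C → ℝ)), IsRefinement C T f g ∧
          (T.extremePoints ℝ).ncard = 2 * k) ∧
    ¬ (∀ (E F : Type) [NormedAddCommGroup E] [NormedSpace ℝ E] [FiniteDimensional ℝ E]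
      [NormedAddCommGroup F] [NormedSpace ℝ F] [FiniteDimensional ℝ F]
      (C : Set E) (T : Set F) (f : F →. E) (g : (T → ℝ) →. (C → ℝ)),
      IsPolytope C → ¬ IsSimplex C → IsRefinement C T f g →
      (C.extremePoints ℝ).ncard ≤ (T.extremePoints ℝ).ncard) := by
  refine ⟨family, fun h => ?_⟩
  obtain ⟨C, h1, h2, _, h4, T, f, g, h5, h6⟩ := family 4 1 (by norm_num) (by norm_num)
  have h7 := h (Fin 4 → ℝ) (Fin 4 × Bool → ℝ) C T f g h1 h2 h5
  rw [h4, h6] at h7
  have : Nat.choose 4 (1 + 1) = 6 := by decide
  omega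

end Pool.Agent.Results.MP_902647_gt.FewerVertices
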